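import Mathlib

/-!
The lines of the affine space AG(3,3) and the bound 9 for caps in it.
-/

set_option autoImplicit false

namespace Pool.Agent.P.MP_e8fd57_co

/-- third point on the line through `p` and `q` (points are base-3 numbers below 27) -/
def third (p q : ℕ) : ℕ :=
  (6 - p % 3 - q % 3) % 3 + 3 * ((6 - (p / 3) % 3 - (q / 3) % 3) % 3) +
    9 * ((6 - p / 9 - q / 9) % 3)

/-- incidence table: bit `27 * l + p` says that point `p` lies on line `l` -/
def big : ℕ := 786618861966753222459964645507679134668984071155305771814856763791101560342639281508675361851643975703754612581100049149362796355840145785117579072511387499977863170925240997542039789800471179675118211292014084778302507073270530040486497388717356537755439011385088377602262796527198021709293821826163989324735937599800309904031724736360314907412074679247890237309030880063003814976635173042066966640288975306740514501777163191582044197722177021646875631264373782724413099205019809474540388926067775506614657021773567594155511651267097073264695815145978314108160434541008009963489937358467465219132255412391736361588287036399056537559839759631428193558446448859785173750781117565244738653030081163980075018341818825306773300910302245350781253613557584378376334581157478508941349072816029409195034983134154169071097903988141179380001710569873094571706173005753979453192535446368364343042544649795764083565742443310578294758953077211883629769297286397959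

def inc (p l : ℕ) : Bool := big.testBit (27 * l + p)

def chk : ℕ → List ℕ → List ℕ → ℕ → Bool
  | 0, cands, _, need => Nat.blt cands.length need
  | f + 1, cands, ch, need => Nat.blt cands.length need ||
      match cands, need with
      | p :: rest, need' + 1 => chk f rest ch (need' + 1) &&
          chk f (rest.filter fun x => ch.all fun q => !Nat.beq x (third p q)) (p :: ch) need'
      | _, _ => false

theorem chk_sound (C : Finset ℕ) (hC : ∀ p ∈ C, ∀ q ∈ C, p ≠ q → third p q ∉ C) :
    ∀ (f : ℕ) (cands ch : List ℕ) (need : ℕ), chk f cands ch need = true → cands.Nodup →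
      (∀ q ∈ ch, q ∉ cands) → (∀ q ∈ ch, q ∈ C) →
      (cands.filter fun x => decide (x ∈ C)).length < need := by
  intro f
  induction f with
  | zero =>
    intro cands ch need h _ _ _
    exact lt_of_le_of_lt (List.length_filter_le _ _) (by simpa [chk, Nat.blt_eq] using h)
  | succ f ih =>
    intro cands ch need h hnd h1 h2
    unfold chk at h
    rw [Bool.or_eq_true] at h
    rcases h with h | h
    · exact lt_of_le_of_lt (List.length_filter_le _ _) (by simpa [Nat.blt_eq] using h)
    · rcases cands with _ | ⟨p, rest⟩
      · simp at h
      rcases need with _ | need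
      · simp at h
      simp only [Bool.and_eq_true] at h
      rw [List.nodup_cons] at hnd
      have h1' : ∀ q ∈ ch, q ∉ rest := fun q hq hr => h1 q hq (List.mem_cons_of_mem _ hr)
      by_cases hp : p ∈ C
      · have := ih _ _ _ h.2 (hnd.2.filter _)
          (by
            intro q hq hr
            have hr' := List.mem_of_mem_filter hr
            rcases List.mem_cons.mp hq with rfl | hq
            · exact hnd.1 hr'
            · exact h1' q hq hr')
          (by
            intro q hq
            rcases List.mem_cons.mp hq with rfl | hq
            · exact hp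
            · exact h2 q hq)
        rw [List.filter_filter] at this
        have e : (rest.filter fun x => decide (x ∈ C) &&
            ch.all fun q => !Nat.beq x (third p q)) = rest.filter fun x => decide (x ∈ C) := by
          refine List.filter_congr fun x _ => ?_
          by_cases hx : x ∈ C
          · simp only [hx, decide_true, Bool.true_and, List.all_eq_true]
            intro q hq
            have hne : p ≠ q := by
              rintro rfl
              exact h1 p hq List.mem_cons_self
            have := hC p hp q (h2 q hq) hne
            cases hb : Nat.beq x (third p q)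
            · rfl
            · exact absurd (Nat.eq_of_beq_eq_true hb ▸ hx) this
          · simp [hx]
        rw [e] at this
        rw [List.filter_cons_of_pos (by simpa using hp), List.length_cons]
        omega
      · rw [List.filter_cons_of_neg (by simpa using hp)]
        exact ih _ _ _ h.1 hnd.2 h1' h2

/-- thirteen linear functionals, one for each parallel class of planes -/
def phi (j p : ℕ) : ℕ :=
  if j < 9 then (p % 3 + (j % 3) * ((p / 3) % 3) + (j / 3) * (p / 9)) % 3
  else if j < 12 then ((p / 3) % 3 + (j - 9) * (p / 9)) % 3 else (p / 9) % 3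

theorem chk_run : ∀ (j : Fin 13) (t : Fin 3),
    chk 10 ((List.range 27).filter fun p => Nat.beq (phi j.1 p) t.1) [] 5 = true := by
  decide +kernel

theorem phi_lt : ∀ (j : Fin 13) (p : Fin 27), phi j.1 p.1 < 3 := by decide +kernel

theorem phi_count : ∀ p q : Fin 27,
    (Finset.univ.filter fun j : Fin 13 => phi j.1 p.1 = phi j.1 q.1).card =
      if p = q then 13 else 4 := by decide +kernel

theorem plane_bound (C : Finset ℕ) (hlt : ∀ p ∈ C, p < 27)
    (hC : ∀ p ∈ C, ∀ q ∈ C, p ≠ q → third p q ∉ C) (j : Fin 13) (t : Fin 3) :
    (C.filter fun p => phi j.1 p = t.1).card ≤ 4 := by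
  have h := chk_sound C hC _ _ _ _ (chk_run j t) (List.nodup_range.filter _) (by simp) (by simp)
  have : (C.filter fun p => phi j.1 p = t.1) = (((List.range 27).filter
      fun p => Nat.beq (phi j.1 p) t.1).filter fun x => decide (x ∈ C)).toFinset := by
    ext x
    simp only [List.mem_toFinset, List.mem_filter, List.mem_range, decide_eq_true_eq,
      Finset.mem_filter, Nat.beq_eq]
    exact ⟨fun hx => ⟨⟨hlt x hx.1, hx.2⟩, hx.1⟩, fun hx => ⟨hx.2, hx.1.2⟩⟩
  rw [this]
  have := List.toFinset_card_le (((List.range 27).filter
      fun p => Nat.beq (phi j.1 p) t.1).filter fun x => decide (x ∈ C))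
  omega

theorem cap_bound (C : Finset ℕ) (hlt : ∀ p ∈ C, p < 27)
    (hC : ∀ p ∈ C, ∀ q ∈ C, p ≠ q → third p q ∉ C) : C.card ≤ 9 := by
  by_contra hn
  let g : Fin 13 → ℕ := fun j => ∑ x ∈ C, (C.filter fun y => phi j.1 x = phi j.1 y).card
  have h1 : ∀ j, 13 * g j < 4 * C.card ^ 2 + 9 * C.card := by
    intro j
    have hm : ∀ x ∈ C, phi j.1 x ∈ Finset.range 3 := fun x hx =>
      Finset.mem_range.mpr (phi_lt j ⟨x, hlt x hx⟩)
    have e1 := Finset.card_eq_sum_card_fiberwise hm
    have e2 : g j = ∑ t ∈ Finset.range 3, (C.filter fun p => phi j.1 p = t).card ^ 2 := by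
      simp only [g]
      rw [← Finset.sum_fiberwise_of_maps_to hm]
      refine Finset.sum_congr rfl fun t _ => ?_
      rw [sq, ← smul_eq_mul, ← Finset.sum_const]
      refine Finset.sum_congr rfl fun x hx => ?_
      rw [(Finset.mem_filter.mp hx).2]
      simp only [eq_comm]
    have a0 := plane_bound C hlt hC j 0
    have a1 := plane_bound C hlt hC j 1
    have a2 := plane_bound C hlt hC j 2
    simp only [Finset.sum_range_succ, Finset.sum_range_zero, zero_add] at e1 e2
    simp only [Fin.val_zero, Fin.val_one, Fin.val_two] at a0 a1 a2
    rw [e2]
    rw [e1] at hn ⊢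
    generalize (C.filter fun p => phi j.1 p = 0).card = a at *
    generalize (C.filter fun p => phi j.1 p = 1).card = b at *
    generalize (C.filter fun p => phi j.1 p = 2).card = c at *
    interval_cases a <;> interval_cases b <;> interval_cases c <;> omega
  have h2 : ∑ j, g j = 4 * C.card ^ 2 + 9 * C.card := by
    simp only [g]
    rw [Finset.sum_comm]
    have : ∀ x ∈ C, ∑ j : Fin 13, (C.filter fun y => phi j.1 x = phi j.1 y).card =
        4 * C.card + 9 := by
      intro x hx
      simp only [Finset.card_filter]
      rw [Finset.sum_comm]
      have : ∀ y ∈ C, (∑ j : Fin 13, if phi j.1 x = phi j.1 y then 1 else 0) =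
          4 + if x = y then 9 else 0 := by
        intro y hy
        have := phi_count ⟨x, hlt x hx⟩ ⟨y, hlt y hy⟩
        rw [Finset.card_filter] at this
        rw [this]
        by_cases e : x = y <;> simp [e]
      rw [Finset.sum_congr rfl this, Finset.sum_add_distrib]
      simp [hx, mul_comm]
    rw [Finset.sum_congr rfl this]
    simp only [Finset.sum_const, smul_eq_mul]
    ring
  have h3 := Finset.sum_lt_sum_of_nonempty (s := (Finset.univ : Finset (Fin 13)))
    Finset.univ_nonempty fun j _ => h1 j
  rw [← Finset.mul_sum, h2] at h3
  simp at h3

/-- the lines through the point `p` -/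
def star (p : Fin 27) : Finset (Fin 117) := Finset.univ.filter fun l => inc p.1 l.1 = true

theorem star_card : ∀ p, (star p).card = 13 := by decide +kernel

theorem star_inter : ∀ p q : Fin 27, p ≠ q →
    (Finset.univ.filter fun l : Fin 117 => (inc p.1 l.1 && inc q.1 l.1) = true).card ≤ 1 := by
  decide +kernel

theorem line_card : ∀ l : Fin 117,
    (Finset.univ.filter fun p : Fin 27 => inc p.1 l.1 = true).card = 3 := by decide +kernel

theorem line_through0 : ((List.range 27).all fun p => (List.range 27).all fun q =>
    Nat.beq p q || (List.range 117).any fun l => inc p l && inc q l &&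
      (List.range 27).all fun x => !inc x l ||
        (Nat.beq x p || Nat.beq x q || Nat.beq x (third p q))) = true := by decide +kernel

theorem line_through (p q : Fin 27) (h : p ≠ q) : ∃ l : Fin 117, ∀ x : Fin 27,
    inc x.1 l.1 = true → x = p ∨ x = q ∨ x.1 = third p.1 q.1 := by
  have := line_through0
  simp only [List.all_eq_true, List.mem_range, Bool.or_eq_true, Nat.beq_eq, List.any_eq_true,
    Bool.and_eq_true, Bool.not_eq_true'] at this
  rcases this p.1 p.2 q.1 q.2 with e | ⟨l, hl, -, h2⟩
  · exact absurd (Fin.ext e) h
  · refine ⟨⟨l, hl⟩, fun x hx => ?_⟩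
    rcases h2 x.1 x.2 with e | (e | e) | e
    · rw [hx] at e; exact absurd e (by simp)
    · exact Or.inl (Fin.ext e)
    · exact Or.inr (Or.inl (Fin.ext e))
    · exact Or.inr (Or.inr e)

theorem cover_bound (Q : Finset (Fin 27)) (hQ : ∀ l, ∃ p ∈ Q, l ∈ star p) : 18 ≤ Q.card := by
  have h := cap_bound (Qᶜ.map Fin.valEmbedding) (by
    intro p hp
    obtain ⟨x, -, rfl⟩ := Finset.mem_map.mp hp
    exact x.2) (by
    intro p hp q hq hne ht
    obtain ⟨x, hx, rfl⟩ := Finset.mem_map.mp hp
    obtain ⟨y, hy, rfl⟩ := Finset.mem_map.mp hq
    obtain ⟨z, hz, e⟩ := Finset.mem_map.mp ht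
    obtain ⟨l, hl⟩ := line_through x y (fun e => hne (by rw [e]))
    obtain ⟨w, hw, hwl⟩ := hQ l
    rw [Finset.mem_compl] at hx hy hz
    rcases hl w (by simpa [star] using hwl) with rfl | rfl | e'
    · exact hx hw
    · exact hy hw
    · have : w = z := Fin.ext (e'.trans e.symm)
      exact hz (this ▸ hw))
  rw [Finset.card_map, Finset.card_compl] at h
  simp at h
  omega

end Pool.Agent.P.MP_e8fd57_co
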