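import Pool.Agent.P.MP_e8fd57_co.Cap

/-!
The dual of AG(3,3) is a linear hypergraph whose hereditary closure has chromatic index larger
than its maximum degree.
-/

set_option autoImplicit false

open Finset

namespace Pool.Agent.P.MP_e8fd57_co

/-- the hypergraph: vertices are the 117 lines, edges are the 27 pencils of lines -/
def HH : Finset (Finset (Fin 117)) := univ.image star

/-- its hereditary closure -/
def TT : Finset (Finset (Fin 117)) := (HH.biUnion Finset.powerset).filter (fun s => s.Nonempty)

theorem star_inter' {p q : Fin 27} (h : p ≠ q) : (star p ∩ star q).card ≤ 1 := by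
  have := star_inter p q h
  rwa [show (univ.filter fun l : Fin 117 => (inc p.1 l.1 && inc q.1 l.1) = true) =
    star p ∩ star q by ext l; simp [star]] at this

theorem linear : ∀ e ∈ HH, ∀ f ∈ HH, e ≠ f → (e ∩ f).card ≤ 1 := by
  intro e he f hf hne
  obtain ⟨p, -, rfl⟩ := mem_image.mp he
  obtain ⟨q, -, rfl⟩ := mem_image.mp hf
  exact star_inter' (fun h => hne (by rw [h]))

theorem mem_TT {s : Finset (Fin 117)} : s ∈ TT ↔ (∃ p, s ⊆ star p) ∧ s.Nonempty := by
  simp [TT, HH]

theorem card_pow_mem {α : Type} [DecidableEq α] {e : Finset α} {v : α} (hv : v ∈ e) :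
    (e.powerset.filter fun s => v ∈ s).card = 2 ^ (e.card - 1) := by
  rw [← card_erase_of_mem hv, ← card_powerset]
  refine card_bij' (fun s _ => s.erase v) (fun s _ => insert v s) ?_ ?_ ?_ ?_
  · intro s hs
    simp only [mem_filter, mem_powerset] at hs ⊢
    exact erase_subset_erase _ hs.1
  · intro s hs
    simp only [mem_filter, mem_powerset] at hs ⊢
    exact ⟨insert_subset hv (hs.trans (erase_subset _ _)), mem_insert_self _ _⟩
  · intro s hs
    exact insert_erase (mem_filter.mp hs).2
  · intro s hs
    exact erase_insert fun h => by simpa using mem_powerset.mp hs h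

theorem deg_TT (v : Fin 117) : (TT.filter fun s => v ∈ s).card = 12286 := by
  let P : Finset (Fin 27) := univ.filter fun p => inc p.1 v.1 = true
  have hP : ∀ p, p ∈ P ↔ v ∈ star p := by simp [P, star]
  have hP3 : P.card = 3 := line_card v
  have e : (TT.filter fun s => v ∈ s) = insert {v}
      (P.biUnion fun p => ((star p).powerset.filter fun s => v ∈ s).erase {v}) := by
    ext s
    simp only [mem_filter, mem_TT, mem_insert, mem_biUnion, mem_erase, mem_powerset, hP]
    constructor
    · rintro ⟨⟨⟨p, hp⟩, -⟩, hv⟩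
      by_cases h : s = {v}
      · exact Or.inl h
      · exact Or.inr ⟨p, hp hv, h, hp, hv⟩
    · rintro (rfl | ⟨p, -, -, hp, hv⟩)
      · obtain ⟨p, hp⟩ := card_pos.mp (by omega : 0 < P.card)
        exact ⟨⟨⟨p, by simpa using (hP p).mp hp⟩, by simp⟩, by simp⟩
      · exact ⟨⟨⟨p, hp⟩, ⟨v, hv⟩⟩, hv⟩
  rw [e, card_insert_of_notMem (by simp), card_biUnion]
  · have : ∀ p ∈ P, (((star p).powerset.filter fun s => v ∈ s).erase {v}).card = 4095 := by
      intro p hp
      have hv := (hP p).mp hp
      rw [card_erase_of_mem (by simpa using hv), card_pow_mem hv, star_card]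
      rfl
    rw [sum_congr rfl this, sum_const, hP3]
    rfl
  · intro p _ q _ hpq
    refine disjoint_left.mpr fun s h1 h2 => ?_
    simp only [mem_erase, mem_filter, mem_powerset] at h1 h2
    have a1 : s.card ≤ 1 := (card_le_card (subset_inter h1.2.1 h2.2.1)).trans (star_inter' hpq)
    refine h1.1 (eq_singleton_iff_unique_mem.mpr ⟨h1.2.2, fun x hx => ?_⟩)
    exact card_le_one.mp a1 x hx v h1.2.2

theorem card_TT : TT.card ≤ 220923 := by
  have e : TT ⊆ (univ.image fun v : Fin 117 => ({v} : Finset (Fin 117))) ∪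
      univ.biUnion fun p => (star p).powerset \
        insert ∅ ((star p).image fun v => ({v} : Finset (Fin 117))) := by
    intro s hs
    obtain ⟨⟨p, hp⟩, hne⟩ := mem_TT.mp hs
    simp only [mem_union, mem_image, mem_univ, true_and, mem_biUnion, mem_sdiff, mem_powerset,
      mem_insert, not_or, not_exists, not_and]
    by_cases h : ∃ v, ({v} : Finset (Fin 117)) = s
    · exact Or.inl h
    · exact Or.inr ⟨p, hp, hne.ne_empty, fun v _ e => h ⟨v, e⟩⟩
  refine (card_le_card e).trans ((card_union_le _ _).trans ?_)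
  have a1 : (univ.image fun v : Fin 117 => ({v} : Finset (Fin 117))).card ≤ 117 :=
    card_image_le.trans (by simp)
  have a2 : ∀ p, ((star p).powerset \
      insert ∅ ((star p).image fun v => ({v} : Finset (Fin 117)))).card = 8178 := by
    intro p
    rw [card_sdiff_of_subset, card_powerset, card_insert_of_notMem (by simp),
      card_image_of_injective _ singleton_injective, star_card]
    · rfl
    · intro s hs
      rcases mem_insert.mp hs with rfl | hs
      · simp
      · obtain ⟨v, hv, rfl⟩ := mem_image.mp hs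
        simpa using hv
  have a3 := card_biUnion_le (s := (univ : Finset (Fin 27))) (t := fun p => (star p).powerset \
        insert ∅ ((star p).image fun v => ({v} : Finset (Fin 117))))
  simp only [a2, sum_const, card_univ, Fintype.card_fin, smul_eq_mul] at a3
  omega

theorem no_colouring (c : Finset (Fin 117) → ℕ) (h1 : ∀ s ∈ TT, c s < 12286)
    (h2 : ∀ s ∈ TT, ∀ t ∈ TT, s ≠ t → (s ∩ t).Nonempty → c s ≠ c t) : False := by
  have hsurj : ∀ v : Fin 117, ∀ j < 12286, ∃ s ∈ TT, v ∈ s ∧ c s = j := by
    intro v j hj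
    have := surj_on_of_inj_on_of_card_le (s := TT.filter fun s => v ∈ s) (t := range 12286)
      (fun s _ => c s) (fun s hs => mem_range.mpr (h1 s (mem_filter.mp hs).1))
      (by
        intro s t hs ht e
        by_contra hne
        rw [mem_filter] at hs ht
        exact h2 s hs.1 t ht.1 hne ⟨v, mem_inter.mpr ⟨hs.2, ht.2⟩⟩ e)
      (by rw [deg_TT, card_range]) j (mem_range.mpr hj)
    obtain ⟨s, hs, e⟩ := this
    exact ⟨s, (mem_filter.mp hs).1, (mem_filter.mp hs).2, e.symm⟩
  have hch : ∀ s : Finset (Fin 117), ∃ p, s ∈ TT → s ⊆ star p := by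
    intro s
    by_cases h : s ∈ TT
    · obtain ⟨p, hp⟩ := (mem_TT.mp h).1
      exact ⟨p, fun _ => hp⟩
    · exact ⟨0, fun h' => absurd h' h⟩
  choose g hg using hch
  have hcl : ∀ j ∈ range 12286, 18 ≤ (TT.filter fun s => c s = j).card := by
    intro j hj
    refine (cover_bound ((TT.filter fun s => c s = j).image g) fun l => ?_).trans card_image_le
    obtain ⟨s, hs, hl, e⟩ := hsurj l j (mem_range.mp hj)
    exact ⟨g s, mem_image_of_mem _ (mem_filter.mpr ⟨hs, e⟩), hg s hs hl⟩
  have a1 := card_eq_sum_card_fiberwise (s := TT) (t := range 12286) (f := c)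
    (fun s hs => mem_range.mpr (h1 s hs))
  have a2 := card_nsmul_le_sum (range 12286) _ 18 hcl
  have a3 := card_TT
  rw [card_range, smul_eq_mul] at a2
  omega

theorem main (h : sInf {k : ℕ | ∃ c : Finset (Fin 117) → ℕ, (∀ s ∈ TT, c s < k) ∧
      ∀ s ∈ TT, ∀ t ∈ TT, s ≠ t → (s ∩ t).Nonempty → c s ≠ c t}
    = univ.sup (fun v : Fin 117 => (TT.filter (fun s => v ∈ s)).card)) : False := by
  have e : univ.sup (fun v : Fin 117 => (TT.filter (fun s => v ∈ s)).card) = 12286 := by
    simp only [deg_TT]
    exact sup_const univ_nonempty _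
  rw [e] at h
  have := Nat.sInf_mem (Nat.nonempty_of_pos_sInf (by rw [h]; omega))
  rw [h] at this
  obtain ⟨c, h1, h2⟩ := this
  exact no_colouring c h1 h2

end Pool.Agent.P.MP_e8fd57_co
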